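import Pool.Agent.Q56.P4.Fin

/-!
# MP_42cda2_nt: property (P) forces `{a, b, c} = {1, 2, 3}`

The proof. For every `n` the condition on `(a, b, c)` is recognised by a finite automaton which reads
the base-4 digits of `a`, `b`, `c` simultaneously, least significant digits first (the state is the
set of the representations of `n ^ 2` which are still possible, each with its carry). The
intersection of these languages for `n = 1, 2, 3, 6, 7, 9, 11, 15, 18, 22, 23, 26, 29` is computed
step by step and consists of the multiples `4 ^ j (1, 2, 3)` and their permutations.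
-/

set_option autoImplicit false

namespace Pool.Agent.Results.MP_42cda2_nt.OnlyOneTwoThree

/-- the condition of property (P) for one `n` -/
def Good (n a b c : ℕ) : Prop :=
  ∃ x y z w : ℕ, n ^ 2 = x ^ 2 + y ^ 2 + z ^ 2 + w ^ 2 ∧ ∃ k : ℕ, a * x + b * y + c * z = 4 ^ k

/-- property (P) -/
def PropertyP (a b c : ℕ) : Prop := ∀ n : ℕ, 0 < n → Good n a b c

/-- Let `a`, `b`, `c` be positive integers with a squarefree greatest common divisor. If `(a, b, c)`
has property (P) then `{a, b, c} = {1, 2, 3}`; it is enough to know the condition for `n ≤ 29`. -/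
theorem result (a b c : ℕ) (ha : 0 < a) (hb : 0 < b) (hc : 0 < c)
    (hg : Squarefree (Nat.gcd a (Nat.gcd b c))) :
    (PropertyP a b c → ({a, b, c} : Multiset ℕ) = {1, 2, 3}) ∧
    ((∀ n : ℕ, 0 < n → n ≤ 29 → Good n a b c) → ({a, b, c} : Multiset ℕ) = {1, 2, 3}) := by
  have h : (∀ n : ℕ, 0 < n → n ≤ 29 → Good n a b c) → ({a, b, c} : Multiset ℕ) = {1, 2, 3} :=
    fun h => Pool.Agent.Q56.P4.main ha hb hc hg (fun n h1 h2 => h n h1 h2)
  exact ⟨fun hp => h fun n h1 _ => hp n h1, h⟩

end Pool.Agent.Results.MP_42cda2_nt.OnlyOneTwoThree
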